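import Pool.Agent.Helper70.MM.Goals2

/-!
Packet MM-EDGE2 (project MM of helper70, MP_91ee6f_gt).
-/

open Set

namespace Pool.Agent.Helper11.MM

open Pool.Agent.Helper70.MM

theorem edge2 : EDGE2 := by
  intro a l s hl hl2 hla hs hsl
  have ha : 0 < a := by linarith
  have hρpos : ∀ t : ℝ, 0 < Real.sqrt (a ^ 2 + t ^ 2) := fun t =>
    Real.sqrt_pos.mpr (by positivity)
  have hρsq : ∀ t : ℝ, Real.sqrt (a ^ 2 + t ^ 2) ^ 2 = a ^ 2 + t ^ 2 := fun t =>
    Real.sq_sqrt (by positivity)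
  have hder : ∀ t : ℝ, HasDerivAt (fun t : ℝ => Real.sqrt (a ^ 2 + t ^ 2))
      (t / Real.sqrt (a ^ 2 + t ^ 2)) t := by
    intro t
    have h1 : HasDerivAt (fun t : ℝ => a ^ 2 + t ^ 2) (2 * t) t := by
      have := (hasDerivAt_pow 2 t).const_add (a ^ 2)
      simpa using this
    have h2 := h1.sqrt (by positivity : a ^ 2 + t ^ 2 ≠ 0)
    refine h2.congr_deriv ?_
    have := (hρpos t).ne'
    field_simp
  have hg : ∀ t : ℝ, HasDerivAt (fun t : ℝ => Real.exp (-Real.sqrt (a ^ 2 + t ^ 2)))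
      (-(t * Real.exp (-Real.sqrt (a ^ 2 + t ^ 2)) / Real.sqrt (a ^ 2 + t ^ 2))) t := by
    intro t
    have h := (hder t).neg.exp
    refine h.congr_deriv ?_
    have := (hρpos t).ne'
    simp only [Pi.neg_apply]
    ring
  have hg2 : ∀ t : ℝ, HasDerivAt
      (fun t : ℝ => -(t * Real.exp (-Real.sqrt (a ^ 2 + t ^ 2)) / Real.sqrt (a ^ 2 + t ^ 2)))
      (-(Real.exp (-Real.sqrt (a ^ 2 + t ^ 2)) / Real.sqrt (a ^ 2 + t ^ 2) ^ 3 *
        (a ^ 2 - t ^ 2 * Real.sqrt (a ^ 2 + t ^ 2)))) t := by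
    intro t
    have h := (((hasDerivAt_id t).mul (hg t)).div (hder t) (hρpos t).ne').neg
    refine h.congr_deriv ?_
    have h0 := (hρpos t).ne'
    have h1 := hρsq t
    simp only [id, Pi.mul_apply]
    field_simp
    linear_combination (-1 : ℝ) * h1
  have hconc : ConcaveOn ℝ (Icc 0 l) (fun t : ℝ => Real.exp (-Real.sqrt (a ^ 2 + t ^ 2))) := by
    refine concaveOn_of_hasDerivWithinAt2_nonpos (convex_Icc 0 l) ?_ ?_ ?_ ?_
      (f' := fun t : ℝ => -(t * Real.exp (-Real.sqrt (a ^ 2 + t ^ 2)) / Real.sqrt (a ^ 2 + t ^ 2)))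
      (f'' := fun t : ℝ => -(Real.exp (-Real.sqrt (a ^ 2 + t ^ 2)) /
        Real.sqrt (a ^ 2 + t ^ 2) ^ 3 * (a ^ 2 - t ^ 2 * Real.sqrt (a ^ 2 + t ^ 2))))
    · exact fun t _ => (hg t).continuousAt.continuousWithinAt
    · exact fun t _ => (hg t).hasDerivWithinAt
    · exact fun t _ => (hg2 t).hasDerivWithinAt
    · intro t ht
      rw [interior_Icc] at ht
      obtain ⟨ht0, ht1⟩ := ht
      have h1 : Real.sqrt (a ^ 2 + t ^ 2) ≤ 2 * a := by
        rw [Real.sqrt_le_left (by positivity)]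
        nlinarith
      have h2 : t ^ 2 * Real.sqrt (a ^ 2 + t ^ 2) ≤ a ^ 2 := by
        have h3 : t ^ 2 ≤ a / 2 := by nlinarith
        calc t ^ 2 * Real.sqrt (a ^ 2 + t ^ 2) ≤ (a / 2) * (2 * a) :=
              mul_le_mul h3 h1 (hρpos t).le (by positivity)
          _ = a ^ 2 := by ring
      have h4 : 0 ≤ Real.exp (-Real.sqrt (a ^ 2 + t ^ 2)) / Real.sqrt (a ^ 2 + t ^ 2) ^ 3 := by
        have := hρpos t
        positivity
      have h5 := mul_nonneg h4 (sub_nonneg.mpr h2)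
      simpa using h5
  have key : ∀ x y : ℝ, 0 ≤ x → 0 ≤ y → x + y = l →
      (y / l) * Real.exp (-a) + (x / l) * Real.exp (-Real.sqrt (a ^ 2 + l ^ 2)) ≤
        Real.exp (-Real.sqrt (a ^ 2 + x ^ 2)) := by
    intro x y hx hy hxy
    have h := hconc.2 (left_mem_Icc.mpr hl.le) (right_mem_Icc.mpr hl.le)
      (div_nonneg hy hl.le) (div_nonneg hx hl.le)
      (by rw [← add_div, add_comm, hxy, div_self hl.ne'])
    simp only [smul_eq_mul, mul_zero, zero_add] at h
    have h0 : x / l * l = x := by field_simp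
    rw [h0] at h
    have h1 : Real.sqrt (a ^ 2 + 0 ^ 2) = a := by
      rw [show a ^ 2 + (0:ℝ) ^ 2 = a ^ 2 by ring, Real.sqrt_sq ha.le]
    rw [h1] at h
    exact h
  have k1 := key s (l - s) hs (by linarith) (by ring)
  have k2 := key (l - s) s (by linarith) hs (by ring)
  have e1 : (l - s) / l + s / l = 1 := by field_simp; ring
  have e2 : (l - s) / l = 1 - s / l := by linarith
  rw [e2] at k1 k2
  nlinarith [k1, k2]

end Pool.Agent.Helper11.MM
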